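import Pool.Agent.DB.Defs

/-!
# Project DB (MP_db294d_gt), module DB-T4: leaving darts of a connected set in a tree

PROOF PLAN.
`leave_count`: count the darts `(p, q)` (`A.Adj p q`) with `p ∈ C` in two ways: for fixed `p` there
are `deg A p` of them (`deg A p = (A.neighborSet p).ncard`; use `Set.ncard_coe_finset`,
`SimpleGraph.card_neighborFinset_eq_degree` with classical decidability, or a bijection of the
set of pairs with a sigma type); they split into the inner ones (`q ∈ C`) and the leaving ones.
The inner ones are the darts of `A.induce C`, which is a tree (connected by `hconn`, acyclic as an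
induced subgraph: `SimpleGraph.IsAcyclic.induce` or comap of an acyclic graph along an injective
hom), so it has `C.card - 1` edges (`SimpleGraph.IsTree.card_edgeFinset`) and `2 (C.card - 1)` darts
(`SimpleGraph.dart_card_eq_twice_card_edges`, or sum of degrees = twice number of edges).
`leave_le`: from `deg ≤ (deg - 2) + 2`.
-/

namespace Pool.Agent.DB

open Set

/-- the darts leaving the set `C` -/
def leave {S : Type} (A : SimpleGraph S) (C : Set S) : Set (S × S) :=
  {p | p.1 ∈ C ∧ p.2 ∉ C ∧ A.Adj p.1 p.2}

theorem leave_count {S : Type} [Fintype S] (A : SimpleGraph S) (hA : A.IsTree) (C : Finset S)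
    (hconn : (A.induce (C : Set S)).Connected) :
    (leave A (C : Set S)).ncard + 2 * C.card = ∑ s ∈ C, deg A s + 2 := by
  classical
  -- the inner darts
  have hH : (A.induce (C : Set S)).IsTree := ⟨hconn, hA.isAcyclic.induce _⟩
  have h1 := hH.card_edgeFinset
  have h2 := (A.induce (C : Set S)).sum_degrees_eq_twice_card_edges
  have hcardC : Fintype.card ((C : Set S) : Type) = C.card := by
    simp
  rw [hcardC] at h1
  have h3 : ∑ v : (C : Set S), (A.induce (C : Set S)).degree v =
      ∑ s ∈ C, ((A.neighborFinset s).filter (fun q => q ∈ C)).card := by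
    rw [← Finset.sum_coe_sort C]
    refine Finset.sum_congr rfl fun v _ => ?_
    rw [← SimpleGraph.card_neighborFinset_eq_degree]
    refine Finset.card_bij (fun w _ => (w : S)) ?_ ?_ ?_
    · intro w hw
      rw [SimpleGraph.mem_neighborFinset] at hw
      rw [Finset.mem_filter, SimpleGraph.mem_neighborFinset]
      exact ⟨hw, w.2⟩
    · intro w _ w' _ h
      exact Subtype.ext h
    · intro q hq
      rw [Finset.mem_filter, SimpleGraph.mem_neighborFinset] at hq
      refine ⟨⟨q, hq.2⟩, ?_, rfl⟩
      rw [SimpleGraph.mem_neighborFinset]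
      exact hq.1
  -- the leaving darts
  have h4 : (leave A (C : Set S)).ncard =
      ∑ s ∈ C, ((A.neighborFinset s).filter (fun q => ¬ q ∈ C)).card := by
    have h5 : leave A (C : Set S) =
        ((C.sigma fun s => (A.neighborFinset s).filter (fun q => ¬ q ∈ C)).image
          (fun x : (_ : S) × S => (x.1, x.2)) : Finset (S × S)) := by
      ext ⟨p, q⟩
      simp [leave]
      tauto
    rw [h5, Set.ncard_coe_finset, Finset.card_image_of_injective, Finset.card_sigma]
    rintro ⟨a, b⟩ ⟨c, d⟩ h
    simp only [Prod.mk.injEq] at h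
    obtain ⟨rfl, rfl⟩ := h
    rfl
  have h6 : ∀ s, deg A s = ((A.neighborFinset s).filter (fun q => q ∈ C)).card +
      ((A.neighborFinset s).filter (fun q => ¬ q ∈ C)).card := by
    intro s
    rw [Finset.card_filter_add_card_filter_not]
    unfold deg
    have h7 : (A.neighborSet s).ncard = ((A.neighborFinset s : Finset S) : Set S).ncard := by
      rw [SimpleGraph.coe_neighborFinset]
    rw [h7, Set.ncard_coe_finset]
  rw [Finset.sum_congr rfl fun s _ => h6 s, Finset.sum_add_distrib, ← h3, ← h4, h2]
  omega

theorem leave_le {S : Type} [Fintype S] (A : SimpleGraph S) (hA : A.IsTree) (C : Finset S)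
    (hconn : (A.induce (C : Set S)).Connected) :
    (leave A (C : Set S)).ncard ≤ ∑ s ∈ C, (deg A s - 2) + 2 := by
  have h1 := leave_count A hA C hconn
  have h2 : ∑ s ∈ C, deg A s ≤ ∑ s ∈ C, ((deg A s - 2) + 2) :=
    Finset.sum_le_sum fun s _ => by omega
  rw [Finset.sum_add_distrib, Finset.sum_const, smul_eq_mul] at h2
  omega

end Pool.Agent.DB
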