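import Pool.Agent.DB.Tree.Leave

/-!
# Project DB (MP_db294d_gt), module DB-T5: contraction of the components of a tree minus edges

PROOF PLAN. `comp s := (A.deleteEdges D).connectedComponentMk s`.
(1) `contract_adj_iff` is the definition. If `A.Adj s s'` and `comp s ≠ comp s'` then
`s(s, s') ∈ D` (otherwise `s, s'` are adjacent in `A.deleteEdges D`).
(2) connected: nonempty; a walk in `A` from `s` to `s'` gives a walk (reachability) from `comp s`
to `comp s'`: induction on the walk.
(3) acyclic: use `SimpleGraph.isAcyclic_iff_forall_adj_isBridge` (or `isAcyclic_iff_forall_edge_isBridge`)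
for both graphs. Let `r ≠ r'` be adjacent in the contraction by the edge `s s'` of `A`,
`comp s = r`, `comp s' = r'`, `s(s,s') ∈ D`. Suppose `r` and `r'` were reachable from each other in
`contract A D` minus the edge `s(r,r')`. Claim: if `q, q'` are reachable there, `comp t = q`,
`comp t' = q'`, then `t, t'` are reachable in `A` minus the edge `s(s,s')`: induction on
reachability; one step `q - q'` comes from an edge `u u'` of `A` with `comp u = q`, `comp u' = q'`,
`s(q,q') ≠ s(r,r')`, so `s(u,u') ≠ s(s,s')`; and `t, u` in the same component are reachable in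
`A.deleteEdges D`, hence in `A.deleteEdges {s(s,s')}` (monotone, `s(s,s') ∈ D`). With `t = s`,
`t' = s'`: contradiction to the bridge property of `s s'` in the acyclic graph `A`.
(4) degrees: for a component `r` let `C = {s | comp s = r}`: non-empty, `A.induce C` connected
(reachability in `A.deleteEdges D` inside the component). For every neighbour `r'` of `r` choose a
leaving dart `(s, s')`, `comp s = r`, `comp s' = r'`: injective in `r'`, so
`deg (contract A D) r ≤ (leave A C).ncard ≤ ∑ s ∈ C, (deg A s - 2) + 2` (`leave_le`).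
Summing over `r` (the sets `C` partition `S`): `beta (contract A D) ≤ beta A`. If
`3 ≤ deg (contract A D) r` then some `s ∈ C` has `3 ≤ deg A s`: choose it, injective in `r`:
`bnum (contract A D) ≤ bnum A`.
-/

namespace Pool.Agent.DB

open Set

/-- contraction of the connected components of `A` minus the edges in `D` -/
def contract {S : Type} (A : SimpleGraph S) (D : Set (Sym2 S)) :
    SimpleGraph (A.deleteEdges D).ConnectedComponent where
  Adj r r' := r ≠ r' ∧ ∃ s s', A.Adj s s' ∧ (A.deleteEdges D).connectedComponentMk s = r ∧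
    (A.deleteEdges D).connectedComponentMk s' = r'
  symm := ⟨fun _ _ h => ⟨h.1.symm, by
    obtain ⟨s, s', h1, h2, h3⟩ := h.2
    exact ⟨s', s, h1.symm, h3, h2⟩⟩⟩
  loopless := ⟨fun _ h => h.1 rfl⟩

private theorem ctr_mem {S : Type} (A : SimpleGraph S) (D : Set (Sym2 S)) {s s' : S}
    (h : A.Adj s s') (hne : (A.deleteEdges D).connectedComponentMk s ≠
      (A.deleteEdges D).connectedComponentMk s') : s(s, s') ∈ D := by
  by_contra hD
  apply hne
  rw [SimpleGraph.ConnectedComponent.eq]
  exact SimpleGraph.Adj.reachable (SimpleGraph.deleteEdges_adj.mpr ⟨h, hD⟩)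

private theorem ctr_conn {S : Type} (A : SimpleGraph S) (D : Set (Sym2 S)) {s s' : S}
    (h : A.Walk s s') : (contract A D).Reachable ((A.deleteEdges D).connectedComponentMk s)
      ((A.deleteEdges D).connectedComponentMk s') := by
  induction h with
  | nil => exact SimpleGraph.Reachable.refl _
  | @cons u v w h p ih =>
    by_cases hc : (A.deleteEdges D).connectedComponentMk u =
      (A.deleteEdges D).connectedComponentMk v
    · rw [hc]; exact ih
    · exact (SimpleGraph.Adj.reachable (G := contract A D) ⟨hc, u, v, h, rfl, rfl⟩).trans ih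

private theorem ctr_lift {S : Type} (A : SimpleGraph S) (D : Set (Sym2 S)) {s s' : S}
    (hss : s(s, s') ∈ D)
    {q q' : (A.deleteEdges D).ConnectedComponent}
    (h : ((contract A D).deleteEdges {s((A.deleteEdges D).connectedComponentMk s,
      (A.deleteEdges D).connectedComponentMk s')}).Walk q q') :
    ∀ t t' : S, (A.deleteEdges D).connectedComponentMk t = q →
      (A.deleteEdges D).connectedComponentMk t' = q' →
      (A.deleteEdges {s(s, s')}).Reachable t t' := by
  have hle : A.deleteEdges D ≤ A.deleteEdges {s(s, s')} := by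
    intro a b hab
    rw [SimpleGraph.deleteEdges_adj] at hab ⊢
    refine ⟨hab.1, fun h => hab.2 ?_⟩
    rw [Set.mem_singleton_iff] at h
    rw [h]; exact hss
  induction h with
  | nil =>
    intro t t' ht ht'
    have h1 : (A.deleteEdges D).Reachable t t' := by
      rw [← SimpleGraph.ConnectedComponent.eq, ht, ht']
    exact h1.mono hle
  | @cons u v w h p ih =>
    intro t t' ht ht'
    rw [SimpleGraph.deleteEdges_adj] at h
    obtain ⟨⟨hne, a, b, hab, ha, hb⟩, hnm⟩ := h
    have h1 : (A.deleteEdges D).Reachable t a := by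
      rw [← SimpleGraph.ConnectedComponent.eq, ht, ha]
    have h2 : (A.deleteEdges {s(s, s')}).Adj a b := by
      rw [SimpleGraph.deleteEdges_adj]
      refine ⟨hab, fun h => hnm ?_⟩
      rw [Set.mem_singleton_iff] at h ⊢
      rw [← ha, ← hb]
      rw [Sym2.eq_iff] at h ⊢
      rcases h with ⟨rfl, rfl⟩ | ⟨rfl, rfl⟩
      · exact Or.inl ⟨rfl, rfl⟩
      · exact Or.inr ⟨rfl, rfl⟩
    exact ((h1.mono hle).trans h2.reachable).trans (ih b t' hb ht')

theorem contract_isTree {S : Type} [Fintype S] (A : SimpleGraph S) (hA : A.IsTree)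
    (D : Set (Sym2 S)) : (contract A D).IsTree := by
  have hne : Nonempty (A.deleteEdges D).ConnectedComponent := by
    obtain ⟨s⟩ := hA.connected.nonempty
    exact ⟨(A.deleteEdges D).connectedComponentMk s⟩
  refine ⟨⟨?_⟩, ?_⟩
  · intro r r'
    induction r using SimpleGraph.ConnectedComponent.ind with
    | _ s =>
      induction r' using SimpleGraph.ConnectedComponent.ind with
      | _ s' =>
        obtain ⟨p⟩ := hA.connected.preconnected s s'
        exact ctr_conn A D p
  · rw [SimpleGraph.isAcyclic_iff_forall_adj_isBridge]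
    intro r r' hrr
    obtain ⟨hne, s, s', hss, rfl, rfl⟩ := hrr
    rw [SimpleGraph.isBridge_iff]
    rintro ⟨p⟩
    have h1 := ctr_lift A D (ctr_mem A D hss hne) p s s' rfl rfl
    have h2 := (SimpleGraph.isAcyclic_iff_forall_adj_isBridge.mp hA.isAcyclic) hss
    rw [SimpleGraph.isBridge_iff] at h2
    exact h2 h1

private theorem ctr_induce {S : Type} (A : SimpleGraph S) (D : Set (Sym2 S)) (C : Set S)
    (r : (A.deleteEdges D).ConnectedComponent)
    (hC : ∀ s, s ∈ C ↔ (A.deleteEdges D).connectedComponentMk s = r) {s s' : S}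
    (h : (A.deleteEdges D).Walk s s') : ∀ (hs : s ∈ C) (hs' : s' ∈ C),
      (A.induce C).Reachable ⟨s, hs⟩ ⟨s', hs'⟩ := by
  induction h with
  | nil => intro hs hs'; exact SimpleGraph.Reachable.refl _
  | @cons u v w h p ih =>
    intro hs hs'
    have hv : v ∈ C := by
      rw [hC] at hs ⊢
      rw [← hs, SimpleGraph.ConnectedComponent.eq]
      exact h.symm.reachable
    have h1 : (A.induce C).Adj ⟨u, hs⟩ ⟨v, hv⟩ := (SimpleGraph.deleteEdges_adj.mp h).1
    exact h1.reachable.trans (ih hv hs')

theorem contract_deg {S : Type} [Fintype S] (A : SimpleGraph S) (hA : A.IsTree)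
    (D : Set (Sym2 S)) (C : Finset S) (r : (A.deleteEdges D).ConnectedComponent)
    (hC : ∀ s, s ∈ C ↔ (A.deleteEdges D).connectedComponentMk s = r) :
    deg (contract A D) r ≤ ∑ s ∈ C, (deg A s - 2) + 2 := by
  classical
  have hconn : (A.induce (C : Set S)).Connected := by
    have hne : Nonempty (C : Set S) := by
      obtain ⟨s, hs⟩ := r.exists_rep
      exact ⟨⟨s, Finset.mem_coe.mpr ((hC s).mpr hs)⟩⟩
    refine ⟨?_⟩
    rintro ⟨s, hs⟩ ⟨s', hs'⟩
    have h1 : (A.deleteEdges D).Reachable s s' := by
      rw [← SimpleGraph.ConnectedComponent.eq, (hC s).mp hs, (hC s').mp hs']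
    obtain ⟨p⟩ := h1
    exact ctr_induce A D C r hC p hs hs'
  refine le_trans ?_ (leave_le A hA C hconn)
  have hch : ∀ r' : (A.deleteEdges D).ConnectedComponent, ∃ p : S × S,
      r' ∈ (contract A D).neighborSet r → (p ∈ leave A (C : Set S) ∧
        (A.deleteEdges D).connectedComponentMk p.2 = r') := by
    intro r'
    by_cases h : r' ∈ (contract A D).neighborSet r
    · have h' : (contract A D).Adj r r' := h
      obtain ⟨hne, s, s', hss, h1, h2⟩ := h'
      refine ⟨(s, s'), fun _ => ⟨⟨(hC s).mpr h1, fun h3 => hne ?_, hss⟩, h2⟩⟩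
      rw [← h2]
      exact ((hC s').mp h3).symm
    · obtain ⟨s⟩ := hA.connected.nonempty
      exact ⟨(s, s), fun h' => absurd h' h⟩
  choose f hf using hch
  unfold deg
  refine Set.ncard_le_ncard_of_injOn f (fun r' hr' => (hf r' hr').1) ?_ (Set.toFinite _)
  intro r1 h1 r2 h2 h12
  rw [← (hf r1 h1).2, ← (hf r2 h2).2, h12]

theorem contract_bnum {S : Type} [Fintype S] (A : SimpleGraph S) (hA : A.IsTree)
    (D : Set (Sym2 S)) : bnum (contract A D) ≤ bnum A := by
  classical
  unfold bnum
  have hsub : {v | 3 ≤ deg (contract A D) v} ⊆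
      (A.deleteEdges D).connectedComponentMk '' {v | 3 ≤ deg A v} := by
    intro r hr
    have hr' : 3 ≤ deg (contract A D) r := hr
    have h1 := contract_deg A hA D
      (Finset.univ.filter fun s => (A.deleteEdges D).connectedComponentMk s = r) r (by simp)
    by_contra hcon
    have h2 : ∑ s ∈ (Finset.univ.filter fun s => (A.deleteEdges D).connectedComponentMk s = r),
        (deg A s - 2) = 0 := by
      refine Finset.sum_eq_zero fun s hs => ?_
      rw [Finset.mem_filter] at hs
      by_contra h3
      exact hcon ⟨s, by show 3 ≤ deg A s; omega, hs.2⟩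
    omega
  exact (Set.ncard_le_ncard hsub (Set.toFinite _)).trans (Set.ncard_image_le (Set.toFinite _))

theorem contract_beta {S : Type} [Fintype S] (A : SimpleGraph S) (hA : A.IsTree)
    (D : Set (Sym2 S)) [Fintype (A.deleteEdges D).ConnectedComponent] :
    beta (contract A D) ≤ beta A := by
  classical
  unfold beta
  rw [← Finset.sum_fiberwise Finset.univ (A.deleteEdges D).connectedComponentMk
    (fun v => deg A v - 2)]
  refine Finset.sum_le_sum fun r _ => ?_
  have h1 := contract_deg A hA D
      (Finset.univ.filter fun s => (A.deleteEdges D).connectedComponentMk s = r) r (by simp)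
  omega

end Pool.Agent.DB
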